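import Mathlib

/-!
# Generalized robustness of toric ideals is inherited under elimination of variables

For a positively graded toric ideal `I_A` with universal Groebner basis equal to the universal
Markov basis, the same holds for every subset `A'` of `A`.
-/

open MvPolynomial

namespace Pool.Agent.Results.MP_1df74f_al.EliminationInherits

variable {σ : Type} {τ : Type} {k : Type} {d : ℕ}

/-- A term order (monomial order) on the exponent vectors indexed by `σ`. -/
structure TermOrder (σ : Type) where
  /-- the strict order -/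
  lt : (σ →₀ ℕ) → (σ →₀ ℕ) → Prop
  trans : ∀ u v w, lt u v → lt v w → lt u w
  irrefl : ∀ u, ¬ lt u u
  total : ∀ u v, lt u v ∨ u = v ∨ lt v u
  zero_lt : ∀ u, u ≠ 0 → lt 0 u
  add_lt : ∀ u v w, lt u v → lt (u + w) (v + w)

/-- The toric ideal of the family of vectors `a`: the kernel of `x_i ↦ t^(a i)` into the ring of
Laurent polynomials in `t_1, …, t_d`. -/
noncomputable def toricIdeal (k : Type) [Field k] (a : σ → (Fin d → ℤ)) :
    Ideal (MvPolynomial σ k) :=
  RingHom.ker (aeval (R := k) (fun i => AddMonoidAlgebra.single (a i) (1 : k)) :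
    MvPolynomial σ k →ₐ[k] AddMonoidAlgebra k (Fin d → ℤ))

/-- `u` is the exponent of the leading monomial of `f`. -/
def IsLead [Field k] (o : TermOrder σ) (f : MvPolynomial σ k) (u : σ →₀ ℕ) : Prop :=
  u ∈ f.support ∧ ∀ v ∈ f.support, v ≠ u → o.lt v u

/-- `G` is the reduced Groebner basis of `I` with respect to the term order `o`. -/
structure IsReducedGroebner [Field k] (o : TermOrder σ) (I : Ideal (MvPolynomial σ k))
    (G : Set (MvPolynomial σ k)) : Prop where
  mem : ∀ g ∈ G, g ∈ I ∧ g ≠ 0
  groebner : ∀ f ∈ I, ∀ u, IsLead o f u → ∃ g ∈ G, ∃ v, IsLead o g v ∧ v ≤ u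
  monic : ∀ g ∈ G, ∀ u, IsLead o g u → g.coeff u = 1
  reduced : ∀ g ∈ G, ∀ h ∈ G, g ≠ h → ∀ v, IsLead o h v → ∀ u ∈ g.support, ¬ v ≤ u

/-- The universal Groebner basis, up to sign: the union of all reduced Groebner bases. -/
def universalGroebner [Field k] (I : Ideal (MvPolynomial σ k)) : Set (MvPolynomial σ k) :=
  {f | ∃ (o : TermOrder σ) (G : Set (MvPolynomial σ k)),
    IsReducedGroebner o I G ∧ (f ∈ G ∨ -f ∈ G)}

/-- A binomial `x^u - x^v` with `u ≠ v`. -/
def IsBinomial [Field k] (f : MvPolynomial σ k) : Prop :=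
  ∃ u v : σ →₀ ℕ, u ≠ v ∧ f = monomial u 1 - monomial v 1

/-- The universal Markov basis: the union of all minimal generating sets consisting of
binomials. -/
def universalMarkov [Field k] (I : Ideal (MvPolynomial σ k)) : Set (MvPolynomial σ k) :=
  {f | ∃ G : Set (MvPolynomial σ k), (∀ g ∈ G, IsBinomial g) ∧ Ideal.span G = I ∧
    (∀ H : Set (MvPolynomial σ k), H ⊂ G → Ideal.span H ≠ I) ∧ f ∈ G}

/-- The ideal is generalized robust: universal Groebner basis = universal Markov basis. -/
def GeneralizedRobust [Field k] (I : Ideal (MvPolynomial σ k)) : Prop :=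
  universalGroebner I = universalMarkov I

/-! ### Term orders -/

namespace TermOrder

lemma asymm (o : TermOrder σ) {u v : σ →₀ ℕ} (h : o.lt u v) : ¬ o.lt v u :=
  fun h' => o.irrefl _ (o.trans _ _ _ h h')

lemma lt_of_le_ne (o : TermOrder σ) {u v : σ →₀ ℕ} (h : u ≤ v) (hne : u ≠ v) : o.lt u v := by
  obtain ⟨c, rfl⟩ := exists_add_of_le h
  have hc : c ≠ 0 := by
    rintro rfl
    exact hne (by simp)
  have := o.add_lt _ _ u (o.zero_lt c hc)
  rwa [zero_add, add_comm] at this

lemma wf [Finite σ] (o : TermOrder σ) : WellFounded o.lt := by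
  have : IsStrictOrder (σ →₀ ℕ) o.lt := { irrefl := o.irrefl, trans := o.trans }
  rw [RelEmbedding.wellFounded_iff_isEmpty]
  constructor
  intro f
  obtain ⟨m, n, hmn, hle⟩ := wellQuasiOrdered_le (α := σ →₀ ℕ) f
  have h1 : o.lt (f n) (f m) := f.map_rel_iff.2 hmn
  rcases eq_or_ne (f m) (f n) with he | hne
  · rw [he] at h1
    exact o.irrefl _ h1
  · exact o.asymm (o.lt_of_le_ne hle hne) h1

lemma exists_min [Finite σ] (o : TermOrder σ) (P : (σ →₀ ℕ) → Prop) (h : ∃ u, P u) :
    ∃ u, P u ∧ ∀ v, P v → ¬ o.lt v u := by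
  obtain ⟨u, hu, hmin⟩ := o.wf.has_min {u | P u} h
  exact ⟨u, hu, hmin⟩

/-- restriction of a term order along an injective additive map -/
def comap (o : TermOrder σ) (F : (τ →₀ ℕ) →+ (σ →₀ ℕ)) (hF : Function.Injective F) :
    TermOrder τ where
  lt u v := o.lt (F u) (F v)
  trans _ _ _ h h' := o.trans _ _ _ h h'
  irrefl u := o.irrefl _
  total u v := by
    rcases o.total (F u) (F v) with h | h | h
    · exact Or.inl h
    · exact Or.inr (Or.inl (hF h))
    · exact Or.inr (Or.inr h)
  zero_lt u hu := by
    have := o.zero_lt (F u) (fun h => hu (hF (by simpa using h)))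
    simpa using this
  add_lt u v w h := by
    have := o.add_lt _ _ (F w) h
    simpa using this

/-- first compare the images under an additive map, then break ties -/
def lexMap (F : (σ →₀ ℕ) →+ (τ →₀ ℕ)) (o' : TermOrder τ) (o : TermOrder σ) : TermOrder σ where
  lt u v := o'.lt (F u) (F v) ∨ (F u = F v ∧ o.lt u v)
  trans u v w h h' := by
    rcases h with h | ⟨h, h1⟩ <;> rcases h' with h' | ⟨h', h1'⟩
    · exact Or.inl (o'.trans _ _ _ h h')
    · exact Or.inl (h' ▸ h)
    · exact Or.inl (h ▸ h')
    · exact Or.inr ⟨h.trans h', o.trans _ _ _ h1 h1'⟩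
  irrefl u := by
    rintro (h | ⟨-, h⟩)
    · exact o'.irrefl _ h
    · exact o.irrefl _ h
  total u v := by
    rcases o'.total (F u) (F v) with h | h | h
    · exact Or.inl (Or.inl h)
    · rcases o.total u v with h1 | h1 | h1
      · exact Or.inl (Or.inr ⟨h, h1⟩)
      · exact Or.inr (Or.inl h1)
      · exact Or.inr (Or.inr (Or.inr ⟨h.symm, h1⟩))
    · exact Or.inr (Or.inr (Or.inl h))
  zero_lt u hu := by
    by_cases h : F u = 0
    · exact Or.inr ⟨by simp [h], o.zero_lt u hu⟩
    · left
      have := o'.zero_lt _ h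
      simpa using this
  add_lt u v w h := by
    rcases h with h | ⟨h, h1⟩
    · left
      have := o'.add_lt _ _ (F w) h
      simpa using this
    · exact Or.inr ⟨by simp [h], o.add_lt _ _ w h1⟩

/-- first compare a nonnegative weight, then break ties -/
def wtMap (e : (σ →₀ ℕ) →+ ℕ) (o : TermOrder σ) : TermOrder σ where
  lt u v := e u < e v ∨ (e u = e v ∧ o.lt u v)
  trans u v w h h' := by
    rcases h with h | ⟨h, h1⟩ <;> rcases h' with h' | ⟨h', h1'⟩
    · exact Or.inl (h.trans h')
    · exact Or.inl (h' ▸ h)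
    · exact Or.inl (h ▸ h')
    · exact Or.inr ⟨h.trans h', o.trans _ _ _ h1 h1'⟩
  irrefl u := by
    rintro (h | ⟨-, h⟩)
    · exact lt_irrefl _ h
    · exact o.irrefl _ h
  total u v := by
    rcases lt_trichotomy (e u) (e v) with h | h | h
    · exact Or.inl (Or.inl h)
    · rcases o.total u v with h1 | h1 | h1
      · exact Or.inl (Or.inr ⟨h, h1⟩)
      · exact Or.inr (Or.inl h1)
      · exact Or.inr (Or.inr (Or.inr ⟨h.symm, h1⟩))
    · exact Or.inr (Or.inr (Or.inl h))
  zero_lt u hu := by
    rcases Nat.eq_zero_or_pos (e u) with h | h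
    · exact Or.inr ⟨by simp [h], o.zero_lt u hu⟩
    · left
      simpa using h
  add_lt u v w h := by
    rcases h with h | ⟨h, h1⟩
    · left
      simpa using h
    · exact Or.inr ⟨by simp [h], o.add_lt _ _ w h1⟩

lemma exists_termOrder (σ : Type) [Finite σ] : Nonempty (TermOrder σ) := by
  classical
  obtain ⟨n, ⟨e⟩⟩ := Finite.exists_equiv_fin σ
  let _ : LinearOrder σ := LinearOrder.lift' e e.injective
  let m : MonomialOrder σ := MonomialOrder.lex
  refine ⟨⟨fun u v => m.toSyn u < m.toSyn v, ?_, ?_, ?_, ?_, ?_⟩⟩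
  · intro u v w h h'; exact h.trans h'
  · intro u; exact lt_irrefl _
  · intro u v
    rcases lt_trichotomy (m.toSyn u) (m.toSyn v) with h | h | h
    · exact Or.inl h
    · exact Or.inr (Or.inl (m.toSyn.injective h))
    · exact Or.inr (Or.inr h)
  · intro u hu
    have h0 : m.toSyn 0 ≤ m.toSyn u := m.toSyn_monotone (by simp)
    refine lt_of_le_of_ne h0 ?_
    intro h
    exact hu (m.toSyn.injective h).symm
  · intro u v w h
    simpa using h

end TermOrder

/-! ### Fibres and the toric ideal -/

section Toric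

variable [Field k]

/-- the multidegree of a monomial -/
noncomputable abbrev dg (a : σ → (Fin d → ℤ)) : (σ →₀ ℕ) →+ (Fin d → ℤ) := Finsupp.weight a

/-- the evaluation map -/
noncomputable abbrev ev (k : Type) [Field k] (a : σ → (Fin d → ℤ)) :
    MvPolynomial σ k →ₐ[k] AddMonoidAlgebra k (Fin d → ℤ) :=
  aeval (R := k) (fun i => AddMonoidAlgebra.single (a i) (1 : k))

lemma ev_monomial (a : σ → (Fin d → ℤ)) (u : σ →₀ ℕ) (c : k) :
    ev k a (monomial u c) = AddMonoidAlgebra.single (dg a u) c := by
  induction u using Finsupp.induction with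
  | zero =>
    have : (monomial (0 : σ →₀ ℕ) c : MvPolynomial σ k) = C c := rfl
    rw [this, map_zero]
    simp [ev]
  | single_add i n u _ _ ih =>
    rw [monomial_single_add, map_mul, ih, map_pow, aeval_X, AddMonoidAlgebra.single_pow,
      AddMonoidAlgebra.single_mul_single, map_add, Finsupp.weight_single]
    simp

/-- sum of the coefficients over a fibre -/
noncomputable def fib (a : σ → (Fin d → ℤ)) (b : Fin d → ℤ) (f : MvPolynomial σ k) : k :=
  (ev k a f).coeff b

lemma fib_add (a : σ → (Fin d → ℤ)) (b : Fin d → ℤ) (f g : MvPolynomial σ k) :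
    fib a b (f + g) = fib a b f + fib a b g := by
  simp [fib]

lemma fib_sub (a : σ → (Fin d → ℤ)) (b : Fin d → ℤ) (f g : MvPolynomial σ k) :
    fib a b (f - g) = fib a b f - fib a b g := by
  have := fib_add a b (f - g) g
  rw [sub_add_cancel] at this
  rw [this]; ring

lemma fib_sum {ι : Type} (a : σ → (Fin d → ℤ)) (b : Fin d → ℤ) (s : Finset ι)
    (f : ι → MvPolynomial σ k) :
    fib a b (∑ i ∈ s, f i) = ∑ i ∈ s, fib a b (f i) := by
  classical
  induction s using Finset.induction_on with
  | empty => simp [fib]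
  | insert x s hx ih => rw [Finset.sum_insert hx, Finset.sum_insert hx, fib_add, ih]

lemma fib_monomial (a : σ → (Fin d → ℤ)) (b : Fin d → ℤ) (u : σ →₀ ℕ) (c : k) :
    fib a b (monomial u c) = if dg a u = b then c else 0 := by
  classical
  rw [fib, ev_monomial, AddMonoidAlgebra.coeff_single, Finsupp.single_apply]

lemma mem_toric_iff (a : σ → (Fin d → ℤ)) (f : MvPolynomial σ k) :
    f ∈ toricIdeal k a ↔ ∀ b, fib a b f = 0 := by
  constructor
  · intro h b
    have : ev k a f = 0 := h
    rw [fib, this]; simp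
  · intro h
    show ev k a f = 0
    ext b
    exact h b

lemma binomial_mem (a : σ → (Fin d → ℤ)) {u v : σ →₀ ℕ} (h : dg a u = dg a v) :
    (monomial u (1 : k) - monomial v 1) ∈ toricIdeal k a := by
  rw [mem_toric_iff]
  intro b
  rw [fib_sub, fib_monomial, fib_monomial, h, sub_self]

lemma dg_eq_of_mem (a : σ → (Fin d → ℤ)) {u v : σ →₀ ℕ}
    (h : (monomial u (1 : k) - monomial v 1) ∈ toricIdeal k a) : dg a u = dg a v := by
  rw [mem_toric_iff] at h
  have := h (dg a u)
  rw [fib_sub, fib_monomial, fib_monomial, if_pos rfl] at this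
  by_contra hne
  rw [if_neg (Ne.symm hne)] at this
  simp at this

/-- a nonzero element of the toric ideal with exponent `u` in the support has another exponent of
the same degree in the support -/
lemma exists_other (a : σ → (Fin d → ℤ)) {f : MvPolynomial σ k} (hf : f ∈ toricIdeal k a)
    {u : σ →₀ ℕ} (hu : u ∈ f.support) : ∃ v ∈ f.support, v ≠ u ∧ dg a v = dg a u := by
  by_contra hcon
  push Not at hcon
  have h := (mem_toric_iff a f).1 hf (dg a u)
  rw [f.as_sum, fib_sum] at h
  rw [Finset.sum_eq_single u] at h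
  · rw [fib_monomial, if_pos rfl] at h
    exact (mem_support_iff.1 hu) h
  · intro v hv hvu
    rw [fib_monomial, if_neg (hcon v hv hvu)]
  · intro hn; exact absurd hu hn

/-- `u` is minimal in its fibre -/
def Std (a : σ → (Fin d → ℤ)) (o : TermOrder σ) (u : σ →₀ ℕ) : Prop :=
  ∀ v, dg a v = dg a u → ¬ o.lt v u

/-- the combinatorial description of the elements of reduced Groebner bases -/
structure GB (a : σ → (Fin d → ℤ)) (o : TermOrder σ) (u v : σ →₀ ℕ) : Prop where
  eq : dg a u = dg a v
  lt : o.lt v u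
  std : Std a o v
  min : ∀ w, w ≤ u → w ≠ u → Std a o w

lemma mem_support_binomial {u v w : σ →₀ ℕ} (h : u ≠ v) :
    w ∈ ((monomial u (1 : k) - monomial v 1) : MvPolynomial σ k).support ↔ w = u ∨ w = v := by
  classical
  rw [mem_support_iff, coeff_sub, coeff_monomial, coeff_monomial]
  by_cases h1 : u = w <;> by_cases h2 : v = w
  · exact absurd (h1.trans h2.symm) h
  · simp [h1, h2]
  · simp [h1, h2]
  · simp only [if_neg h1, if_neg h2, sub_zero, ne_eq, not_true_eq_false, false_iff, not_or]
    exact ⟨fun h => h1 h.symm, fun h => h2 h.symm⟩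

lemma isLead_binomial (o : TermOrder σ) {u v : σ →₀ ℕ} (h : o.lt v u) :
    IsLead o ((monomial u (1 : k) - monomial v 1) : MvPolynomial σ k) u := by
  have hne : u ≠ v := by rintro rfl; exact o.irrefl _ h
  refine ⟨(mem_support_binomial hne).2 (Or.inl rfl), ?_⟩
  intro w hw hwu
  rcases (mem_support_binomial hne).1 hw with rfl | rfl
  · exact absurd rfl hwu
  · exact h

lemma isLead_unique (o : TermOrder σ) {f : MvPolynomial σ k} {u v : σ →₀ ℕ}
    (hu : IsLead o f u) (hv : IsLead o f v) : u = v := by
  by_contra hne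
  exact o.asymm (hu.2 v hv.1 (Ne.symm hne)) (hv.2 u hu.1 hne)

lemma exists_lead [Finite σ] (o : TermOrder σ) {f : MvPolynomial σ k} (hf : f ≠ 0) :
    ∃ u, IsLead o f u := by
  classical
  have hs : f.support.Nonempty := by
    rw [Finset.nonempty_iff_ne_empty]
    intro h
    exact hf (support_eq_empty.1 h)
  -- a maximal element of a finite set
  have key : ∀ s : Finset (σ →₀ ℕ), s.Nonempty → ∃ u ∈ s, ∀ v ∈ s, v ≠ u → o.lt v u := by
    intro s hs
    induction hs using Finset.Nonempty.cons_induction with
    | singleton x =>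
      refine ⟨x, by simp, ?_⟩
      intro v hv hne
      exact absurd (Finset.mem_singleton.1 hv) hne
    | cons x s hx hs ih =>
      obtain ⟨u, hu, hmax⟩ := ih
      rcases o.total x u with h | h | h
      · refine ⟨u, Finset.mem_cons_of_mem hu, ?_⟩
        intro v hv hne
        rcases Finset.mem_cons.1 hv with rfl | hv
        · exact h
        · exact hmax v hv hne
      · exact absurd (h ▸ hu) hx
      · refine ⟨x, Finset.mem_cons_self _ _, ?_⟩
        intro v hv hne
        rcases Finset.mem_cons.1 hv with rfl | hv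
        · exact absurd rfl hne
        · by_cases hvu : v = u
          · exact hvu ▸ h
          · exact o.trans _ _ _ (hmax v hv hvu) h
  obtain ⟨u, hu, hmax⟩ := key _ hs
  exact ⟨u, hu, hmax⟩

/-- elements of a reduced Groebner basis of a toric ideal -/
lemma gb_of_mem [Finite σ] (a : σ → (Fin d → ℤ)) (o : TermOrder σ)
    {G : Set (MvPolynomial σ k)} (hG : IsReducedGroebner o (toricIdeal k a) G)
    {g : MvPolynomial σ k} (hg : g ∈ G) :
    ∃ u v, GB a o u v ∧ g = monomial u 1 - monomial v 1 := by
  classical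
  obtain ⟨u, hu⟩ := exists_lead o (hG.mem g hg).2
  -- the general principle: a non-standard exponent is divisible by the lead of an element
  have hdiv : ∀ w, ¬ Std a o w → ∃ h ∈ G, ∃ v, IsLead o h v ∧ v ≤ w := by
    intro w hw
    unfold Std at hw
    push Not at hw
    obtain ⟨v, hv, hlt⟩ := hw
    exact hG.groebner _ (binomial_mem a hv.symm) w (isLead_binomial o hlt)
  have hsupp : ∀ w ∈ g.support, w ≠ u → Std a o w := by
    intro w hw hwu
    by_contra hns
    obtain ⟨h, hh, v, hv, hvw⟩ := hdiv w hns
    by_cases hgh : g = h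
    · subst hgh
      have : u = v := isLead_unique o hu hv
      subst this
      exact o.asymm (hu.2 w hw hwu) (o.lt_of_le_ne hvw (Ne.symm hwu))
    · exact hG.reduced g hg h hh hgh v hv w hw hvw
  have hmin : ∀ w, w ≤ u → w ≠ u → Std a o w := by
    intro w hw hwu
    by_contra hns
    obtain ⟨h, hh, v, hv, hvw⟩ := hdiv w hns
    by_cases hgh : g = h
    · subst hgh
      have : u = v := isLead_unique o hu hv
      subst this
      exact hwu (le_antisymm hw hvw)
    · exact hG.reduced g hg h hh hgh v hv u hu.1 (hvw.trans hw)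
  obtain ⟨u', hu', hne, hdeg⟩ := exists_other a (hG.mem g hg).1 hu.1
  obtain ⟨v, hv, hvmin⟩ := o.exists_min (fun w => dg a w = dg a u) ⟨u, rfl⟩
  have hvu : o.lt v u := by
    have h1 : o.lt u' u := hu.2 u' hu' hne
    rcases o.total v u' with h | h | h
    · exact o.trans _ _ _ h h1
    · exact h ▸ h1
    · exact absurd h (hvmin u' hdeg)
  have hstd : Std a o v := fun w hw => hvmin w (hw.trans hv)
  refine ⟨u, v, ⟨hv.symm, hvu, hstd, hmin⟩, ?_⟩
  by_contra hcon
  have hne0 : g - (monomial u 1 - monomial v 1) ≠ 0 := sub_ne_zero.2 hcon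
  have hmem : g - (monomial u 1 - monomial v 1) ∈ toricIdeal k a :=
    Ideal.sub_mem _ (hG.mem g hg).1 (binomial_mem a hv.symm)
  obtain ⟨w, hw⟩ := exists_lead o hne0
  obtain ⟨w', hw', hw'ne, hw'd⟩ := exists_other a hmem hw.1
  have hlt : o.lt w' w := hw.2 w' hw' hw'ne
  have hnstd : ¬ Std a o w := fun h => h w' hw'd hlt
  have hvne : u ≠ v := by rintro rfl; exact o.irrefl _ hvu
  have hwu : w ≠ u := by
    rintro rfl
    have := mem_support_iff.1 hw.1
    rw [coeff_sub, coeff_sub, coeff_monomial, coeff_monomial, if_pos rfl,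
      if_neg (Ne.symm hvne), hG.monic g hg w hu] at this
    simp at this
  by_cases hwv : w = v
  · exact hnstd (hwv ▸ hstd)
  · apply hnstd
    apply hsupp w _ hwu
    rw [mem_support_iff]
    have := mem_support_iff.1 hw.1
    rwa [coeff_sub, coeff_sub, coeff_monomial, coeff_monomial, if_neg (Ne.symm hwu),
      if_neg (Ne.symm hwv), sub_zero, sub_zero] at this

/-- the combinatorial description gives a reduced Groebner basis -/
lemma isReducedGroebner_gb [Finite σ] (a : σ → (Fin d → ℤ)) (o : TermOrder σ) :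
    IsReducedGroebner o (toricIdeal k a)
      {g | ∃ u v, GB a o u v ∧ g = monomial u (1 : k) - monomial v 1} := by
  classical
  have hlead : ∀ {u v w : σ →₀ ℕ}, GB a o u v →
      IsLead o ((monomial u (1 : k) - monomial v 1) : MvPolynomial σ k) w → w = u := by
    intro u v w h hw
    exact isLead_unique o hw (isLead_binomial o h.lt)
  refine ⟨?_, ?_, ?_, ?_⟩
  · rintro g ⟨u, v, h, rfl⟩
    refine ⟨binomial_mem a h.eq, ?_⟩
    intro h0
    have := (isLead_binomial (k := k) o h.lt).1
    rw [h0] at this
    simp at this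
  · intro f hf u hu
    obtain ⟨v, hv, hvu, hdv⟩ := exists_other a hf hu.1
    have hns : ¬ Std a o u := fun h => h v hdv (hu.2 v hv hvu)
    -- take a minimal non-standard divisor
    obtain ⟨u1, ⟨hu1, hu1n⟩, hu1min⟩ := o.exists_min (fun w => w ≤ u ∧ ¬ Std a o w)
      ⟨u, le_rfl, hns⟩
    obtain ⟨v1, hv1, hv1min⟩ := o.exists_min (fun w => dg a w = dg a u1) ⟨u1, rfl⟩
    have hlt : o.lt v1 u1 := by
      unfold Std at hu1n
      push Not at hu1n
      obtain ⟨v', hv', hlt'⟩ := hu1n
      rcases o.total v1 v' with h | h | h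
      · exact o.trans _ _ _ h hlt'
      · exact h ▸ hlt'
      · exact absurd h (hv1min v' hv')
    have hgb : GB a o u1 v1 := by
      refine ⟨hv1.symm, hlt, fun w hw => hv1min w (hw.trans hv1), ?_⟩
      intro w hw hwu
      by_contra hn
      exact hu1min w ⟨hw.trans hu1, hn⟩ (o.lt_of_le_ne hw hwu)
    exact ⟨_, ⟨u1, v1, hgb, rfl⟩, u1, isLead_binomial o hlt, hu1⟩
  · rintro g ⟨u, v, h, rfl⟩ w hw
    have := hlead h hw
    subst this
    have hne : w ≠ v := by rintro rfl; exact o.irrefl _ h.lt
    rw [coeff_sub, coeff_monomial, coeff_monomial, if_pos rfl, if_neg (Ne.symm hne), sub_zero]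
  · rintro g ⟨u, v, h, rfl⟩ g' ⟨u', v', h', rfl⟩ hne w hw x hx hle
    have := hlead h' hw
    subst this
    have huv : u ≠ v := by rintro rfl; exact o.irrefl _ h.lt
    have hns : ¬ Std a o w := fun hs => hs v' h'.eq.symm h'.lt
    rcases (mem_support_binomial huv).1 hx with rfl | rfl
    · by_cases hwx : w = x
      · subst hwx
        apply hne
        have : v = v' := by
          rcases o.total v v' with h1 | h1 | h1
          · exact absurd h1 (h'.std v (h.eq.symm.trans h'.eq))
          · exact h1
          · exact absurd h1 (h.std v' (h'.eq.symm.trans h.eq))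
        rw [this]
      · exact hns (h.min w hle hwx)
    · obtain ⟨c, rfl⟩ := exists_add_of_le hle
      have h1 : o.lt (v' + c) (w + c) := o.add_lt _ _ c h'.lt
      have h2 : dg a (v' + c) = dg a (w + c) := by rw [map_add, map_add, h'.eq]
      exact h.std _ h2 h1

lemma mem_universalGroebner_iff [Finite σ] (a : σ → (Fin d → ℤ)) (f : MvPolynomial σ k) :
    f ∈ universalGroebner (toricIdeal k a) ↔ ∃ o u v, GB a o u v ∧
      (f = monomial u 1 - monomial v 1 ∨ f = monomial v 1 - monomial u 1) := by
  constructor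
  · rintro ⟨o, G, hG, h | h⟩
    · obtain ⟨u, v, hgb, rfl⟩ := gb_of_mem a o hG h
      exact ⟨o, u, v, hgb, Or.inl rfl⟩
    · obtain ⟨u, v, hgb, he⟩ := gb_of_mem a o hG h
      refine ⟨o, u, v, hgb, Or.inr ?_⟩
      rw [← neg_neg f, he, neg_sub]
  · rintro ⟨o, u, v, hgb, h⟩
    refine ⟨o, _, isReducedGroebner_gb a o, ?_⟩
    rcases h with rfl | rfl
    · exact Or.inl ⟨u, v, hgb, rfl⟩
    · exact Or.inr ⟨u, v, hgb, by rw [neg_sub]⟩

/-! ### Graded Nakayama -/

section Nakayama

variable (c : σ → ℕ)

lemma comp_monomial_mul (n : ℕ) (s : σ →₀ ℕ) (r : k) (x : MvPolynomial σ k) :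
    weightedHomogeneousComponent c n (monomial s r * x) =
      if Finsupp.weight c s ≤ n then
        monomial s r * weightedHomogeneousComponent c (n - Finsupp.weight c s) x else 0 := by
  classical
  ext u
  rw [coeff_weightedHomogeneousComponent, coeff_monomial_mul']
  by_cases hsu : s ≤ u
  · obtain ⟨t, rfl⟩ := exists_add_of_le hsu
    have hw : Finsupp.weight c (s + t) = Finsupp.weight c s + Finsupp.weight c t := map_add _ _ _
    have ht : s + t - s = t := by simp
    by_cases hle : Finsupp.weight c s ≤ n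
    · rw [if_pos hle, coeff_monomial_mul', if_pos hsu, if_pos hsu, ht,
        coeff_weightedHomogeneousComponent]
      by_cases h1 : Finsupp.weight c (s + t) = n
      · rw [if_pos h1, if_pos (by omega)]
      · rw [if_neg h1, if_neg (by omega), mul_zero]
    · rw [if_neg hle, if_neg (by omega), coeff_zero]
  · rw [if_neg hsu]
    split_ifs with h1 h2
    · rw [coeff_monomial_mul', if_neg hsu]
    · rw [coeff_zero]
    · rw [coeff_monomial_mul', if_neg hsu]
    · rw [coeff_zero]

lemma comp_mem_span (G : Set (MvPolynomial σ k))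
    (hG : ∀ g ∈ G, ∃ n, IsWeightedHomogeneous c g n) (j : MvPolynomial σ k)
    (hj : j ∈ Ideal.span G) : ∀ n, weightedHomogeneousComponent c n j ∈ Ideal.span G := by
  classical
  refine Submodule.span_induction (p := fun j _ => ∀ n, weightedHomogeneousComponent c n j ∈
    Ideal.span G) ?_ ?_ ?_ ?_ hj
  · intro g hg n
    obtain ⟨m, hm⟩ := hG g hg
    by_cases hnm : n = m
    · subst hnm
      rw [hm.weightedHomogeneousComponent_same]
      exact Ideal.subset_span hg
    · rw [hm.weightedHomogeneousComponent_ne n hnm]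
      exact zero_mem _
  · intro n
    rw [map_zero]; exact zero_mem _
  · intro x y _ _ hx hy n
    rw [map_add]; exact add_mem (hx n) (hy n)
  · intro r x _ hx n
    rw [smul_eq_mul]
    conv_lhs => skip
    rw [r.as_sum, Finset.sum_mul, map_sum]
    refine Ideal.sum_mem _ fun s _ => ?_
    rw [comp_monomial_mul]
    split_ifs
    · exact Ideal.mul_mem_left _ _ (hx _)
    · exact zero_mem _

lemma nakayama (hc : ∀ i, 0 < c i) (I : Ideal (MvPolynomial σ k)) (G : Set (MvPolynomial σ k))
    (hG : ∀ g ∈ G, ∃ n, IsWeightedHomogeneous c g n)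
    (h : I ≤ Ideal.span G ⊔ Ideal.span (Set.range X) * I) : I ≤ Ideal.span G := by
  classical
  have key : ∀ n, ∀ f ∈ I, weightedHomogeneousComponent c n f ∈ Ideal.span G := by
    intro n
    induction n using Nat.strong_induction_on with
    | _ n ih =>
      intro f hf
      obtain ⟨j, hj, p, hp, rfl⟩ := Submodule.mem_sup.1 (h hf)
      rw [map_add]
      refine add_mem (comp_mem_span c G hG j hj n) ?_
      refine Submodule.mul_induction_on hp ?_ ?_
      · intro m hm g hg
        have : ∀ g ∈ I, weightedHomogeneousComponent c n (m * g) ∈ Ideal.span G := by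
          refine Submodule.span_induction (p := fun m _ => ∀ g ∈ I,
            weightedHomogeneousComponent c n (m * g) ∈ Ideal.span G) ?_ ?_ ?_ ?_ hm
          · rintro _ ⟨i, rfl⟩ g hg
            have hX : (X i : MvPolynomial σ k) = monomial (Finsupp.single i 1) 1 := rfl
            rw [hX, comp_monomial_mul]
            split_ifs with hle
            · refine Ideal.mul_mem_left _ _ (ih _ ?_ g hg)
              have : Finsupp.weight c (Finsupp.single i 1) = c i := by
                rw [Finsupp.weight_single, one_smul]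
              rw [this] at hle ⊢
              have := hc i
              omega
            · exact zero_mem _
          · intro g _
            rw [zero_mul, map_zero]; exact zero_mem _
          · intro x y _ _ hx hy g hg
            rw [add_mul, map_add]; exact add_mem (hx g hg) (hy g hg)
          · intro r x _ hx g hg
            rw [smul_eq_mul, mul_assoc, mul_left_comm]
            exact hx (r * g) (Ideal.mul_mem_left _ _ hg)
        exact this g hg
      · intro x y hx hy
        rw [map_add]; exact add_mem hx hy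
  intro f hf
  have hfin := weightedHomogeneousComponent_finsupp (w := c) f
  rw [← sum_weightedHomogeneousComponent c f, finsum_eq_sum _ hfin]
  exact Ideal.sum_mem _ fun n _ => key n f hf

end Nakayama

/-- a positive grading by natural numbers -/
structure Grad (a : σ → (Fin d → ℤ)) (c : σ → ℕ) : Prop where
  pos : ∀ i, 0 < c i
  eq : ∀ u v : σ →₀ ℕ, dg a u = dg a v → Finsupp.weight c u = Finsupp.weight c v

lemma exists_grad [Finite σ] (a : σ → (Fin d → ℤ)) (w : Fin d → ℚ)
    (hw : ∀ i, 0 < ∑ j, w j * (a i j : ℚ)) : ∃ c : σ → ℕ, Grad a c := by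
  classical
  have := Fintype.ofFinite σ
  let q : σ → ℚ := fun i => ∑ j, w j * (a i j : ℚ)
  let N : ℕ := ∏ i, (q i).den
  have hN : 0 < N := Finset.prod_pos fun i _ => (q i).den_pos
  have hdvd : ∀ i, (q i).den ∣ N := fun i => Finset.dvd_prod_of_mem _ (Finset.mem_univ i)
  let c : σ → ℕ := fun i => (q i).num.natAbs * (N / (q i).den)
  have hcq : ∀ i, (c i : ℚ) = N * q i := by
    intro i
    obtain ⟨m, hm⟩ := hdvd i
    have hden : (q i).den ≠ 0 := (q i).den_ne_zero
    have hdiv : N / (q i).den = m := by
      rw [hm, Nat.mul_div_cancel_left _ (q i).den_pos]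
    have hnum : ((q i).num.natAbs : ℚ) = (q i).num := by
      have h0 : 0 ≤ (q i).num := (Rat.num_pos.2 (hw i)).le
      have h1 : (((q i).num.natAbs : ℤ) : ℚ) = ((q i).num : ℚ) := by
        rw [Int.natAbs_of_nonneg h0]
      rw [← h1]
      exact (Int.cast_natCast _).symm
    show (((q i).num.natAbs * (N / (q i).den) : ℕ) : ℚ) = N * q i
    rw [hdiv, Nat.cast_mul, hnum]
    have h2 : q i * (q i).den = (q i).num := Rat.mul_den_eq_num _
    have h3 : (N : ℚ) = (q i).den * m := by rw [hm]; push_cast; ring
    rw [h3, ← h2]; ring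
  have hsum : ∀ u : σ →₀ ℕ, ((Finsupp.weight c u : ℕ) : ℚ) = N * ∑ j, w j * (dg a u j : ℚ) := by
    intro u
    induction u using Finsupp.induction with
    | zero => simp
    | single_add i n u _ _ ih =>
      rw [map_add, map_add, Nat.cast_add, ih, Finsupp.weight_single, Finsupp.weight_single]
      have h1 : ((n • c i : ℕ) : ℚ) = N * ∑ j, w j * ((n • a i) j : ℚ) := by
        rw [smul_eq_mul, Nat.cast_mul, hcq i]
        show (n : ℚ) * (N * ∑ j, w j * (a i j : ℚ)) = _
        rw [mul_left_comm, Finset.mul_sum, Finset.mul_sum, Finset.mul_sum]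
        refine Finset.sum_congr rfl fun j _ => ?_
        simp only [Pi.smul_apply, nsmul_eq_mul, Int.cast_mul, Int.cast_natCast]
        ring
      rw [h1, ← mul_add, ← Finset.sum_add_distrib]
      congr 1
      refine Finset.sum_congr rfl fun j _ => ?_
      simp only [Pi.add_apply, Int.cast_add]
      ring
  refine ⟨c, ⟨?_, ?_⟩⟩
  · intro i
    have h1 : (0 : ℚ) < c i := by
      rw [hcq i]
      exact mul_pos (by exact_mod_cast hN) (hw i)
    exact_mod_cast h1
  · intro u v h
    have h1 := hsum u
    have h2 := hsum v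
    rw [h] at h1
    exact_mod_cast h1.trans h2.symm

lemma Grad.eq_zero {a : σ → (Fin d → ℤ)} {c : σ → ℕ} (h : Grad a c) {u : σ →₀ ℕ}
    (hu : dg a u = 0) : u = 0 := by
  have h1 : Finsupp.weight c u = 0 := by
    have := h.eq u 0 (by rw [hu, map_zero])
    rwa [map_zero] at this
  rw [Finsupp.weight_apply] at h1
  ext i
  by_contra hi
  have h2 : u i • c i ≤ u.sum fun i n => n • c i :=
    Finset.single_le_sum (f := fun i => u i • c i) (fun _ _ => Nat.zero_le _)
      (Finsupp.mem_support_iff.2 hi)
  have h3 : 0 < u i • c i := by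
    rw [smul_eq_mul]
    exact Nat.mul_pos (Nat.pos_of_ne_zero hi) (h.pos i)
  omega

/-! ### The universal Markov basis -/

/-- the product of the irrelevant ideal with `I` -/
noncomputable abbrev irr (I : Ideal (MvPolynomial σ k)) : Ideal (MvPolynomial σ k) :=
  Ideal.span (Set.range X) * I

lemma isHomog_binomial {a : σ → (Fin d → ℤ)} {c : σ → ℕ} (hc : Grad a c) {g : MvPolynomial σ k}
    (hb : IsBinomial g) (hg : g ∈ toricIdeal k a) : ∃ n, IsWeightedHomogeneous c g n := by
  obtain ⟨u, v, -, rfl⟩ := hb
  have h := hc.eq _ _ (dg_eq_of_mem a hg)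
  refine ⟨Finsupp.weight c u, ?_⟩
  have h1 : IsWeightedHomogeneous c (monomial u (1 : k)) (Finsupp.weight c u) :=
    isWeightedHomogeneous_monomial _ _ _ rfl
  have h2 : IsWeightedHomogeneous c (monomial v (1 : k)) (Finsupp.weight c u) :=
    isWeightedHomogeneous_monomial _ _ _ h.symm
  intro w hw
  rw [coeff_sub] at hw
  by_cases h3 : coeff w (monomial u (1 : k)) = 0
  · rw [h3, zero_sub] at hw
    exact h2 (neg_ne_zero.1 hw)
  · exact h1 h3

lemma sub_const_mem (r : MvPolynomial σ k) :
    r - C (coeff 0 r) ∈ Ideal.span (Set.range (X : σ → MvPolynomial σ k)) := by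
  classical
  induction r using MvPolynomial.induction_on with
  | C a => rw [coeff_C, if_pos rfl, sub_self]; exact zero_mem _
  | add p q hp hq =>
    have : p + q - C (coeff 0 (p + q)) = (p - C (coeff 0 p)) + (q - C (coeff 0 q)) := by
      rw [coeff_add, C_add]; ring
    rw [this]; exact add_mem hp hq
  | mul_X p i _ =>
    have : coeff 0 (p * X i) = 0 := by
      rw [coeff_mul_X', if_neg (by simp)]
    rw [this, C_0, sub_zero]
    exact Ideal.mul_mem_left _ _ (Ideal.subset_span ⟨i, rfl⟩)

/-- a linear part modulo the irrelevant ideal -/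
lemma span_le (I : Ideal (MvPolynomial σ k)) (H : Set (MvPolynomial σ k)) (hH : H ⊆ I)
    {p : MvPolynomial σ k} (hp : p ∈ Ideal.span H) :
    ∃ q ∈ Submodule.span k H, p - q ∈ irr I := by
  classical
  refine Submodule.span_induction (p := fun p _ => ∃ q ∈ Submodule.span k H, p - q ∈ irr I)
    ?_ ?_ ?_ ?_ hp
  · intro x hx
    exact ⟨x, Submodule.subset_span hx, by rw [sub_self]; exact zero_mem _⟩
  · exact ⟨0, zero_mem _, by rw [sub_self]; exact zero_mem _⟩
  · rintro x y - - ⟨q, hq, h1⟩ ⟨q', hq', h2⟩
    refine ⟨q + q', add_mem hq hq', ?_⟩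
    have : x + y - (q + q') = (x - q) + (y - q') := by ring
    rw [this]; exact add_mem h1 h2
  · rintro r x hx ⟨q, hq, h1⟩
    have hxI : x ∈ I := Ideal.span_le.2 hH hx
    have hqI : q ∈ I := by
      have h2 : x - q ∈ I := (Ideal.mul_le_right : irr I ≤ I) h1
      have : q = x - (x - q) := by ring
      rw [this]; exact sub_mem hxI h2
    refine ⟨(coeff 0 r) • q, Submodule.smul_mem _ _ hq, ?_⟩
    have h3 := sub_const_mem (σ := σ) r
    have h4 : r • x - coeff 0 r • q = (r - C (coeff 0 r)) * x + C (coeff 0 r) * (x - q) := by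
      rw [smul_eq_mul, MvPolynomial.smul_eq_C_mul]; ring
    rw [h4]
    exact add_mem (Ideal.mul_mem_mul h3 hxI) (Ideal.mul_mem_left _ _ h1)

/-- the toric ideal is generated by its binomials -/
lemma toric_le_span (a : σ → (Fin d → ℤ)) :
    toricIdeal k a ≤ Ideal.span {g | IsBinomial g ∧ g ∈ toricIdeal k a} := by
  classical
  intro f hf
  let r : (σ →₀ ℕ) → (σ →₀ ℕ) := fun u => Function.invFun (dg a) (dg a u)
  have hr : ∀ u, dg a (r u) = dg a u := fun u => Function.invFun_eq ⟨u, rfl⟩
  have hz : ∑ u ∈ f.support, monomial (r u) (coeff u f) = 0 := by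
    ext w
    rw [coeff_sum, coeff_zero]
    by_cases hw : r w = w
    · have h0 := (mem_toric_iff a f).1 hf (dg a w)
      conv_lhs at h0 => rw [f.as_sum, fib_sum]
      rw [← h0]
      refine Finset.sum_congr rfl fun u _ => ?_
      rw [coeff_monomial, fib_monomial]
      by_cases h1 : r u = w
      · rw [if_pos h1, if_pos (by rw [← hr u, h1])]
      · rw [if_neg h1, if_neg]
        intro h2
        apply h1
        show Function.invFun (dg a) (dg a u) = w
        rw [h2]; exact hw
    · refine Finset.sum_eq_zero fun u _ => ?_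
      rw [coeff_monomial, if_neg]
      intro h1
      apply hw
      have h2 : dg a u = dg a w := by rw [← hr u, h1]
      show Function.invFun (dg a) (dg a w) = w
      rw [← h2]; exact h1
  have hf' : f = ∑ u ∈ f.support, (monomial u (coeff u f) - monomial (r u) (coeff u f)) := by
    rw [Finset.sum_sub_distrib, hz, sub_zero]
    exact f.as_sum
  rw [hf']
  refine Ideal.sum_mem _ fun u _ => ?_
  have h1 : monomial u (coeff u f) - monomial (r u) (coeff u f)
      = C (coeff u f) * (monomial u 1 - monomial (r u) 1) := by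
    rw [mul_sub, C_mul_monomial, C_mul_monomial, mul_one]
  rw [h1]
  refine Ideal.mul_mem_left _ _ ?_
  by_cases h2 : u = r u
  · rw [← h2, sub_self]; exact zero_mem _
  · exact Ideal.subset_span ⟨⟨u, r u, h2, rfl⟩, binomial_mem a (hr u).symm⟩

lemma not_mem_irr_of_markov {a : σ → (Fin d → ℤ)} {c : σ → ℕ} (hc : Grad a c)
    {f : MvPolynomial σ k} (hf : f ∈ universalMarkov (toricIdeal k a)) :
    IsBinomial f ∧ f ∈ toricIdeal k a ∧ f ∉ irr (toricIdeal k a) := by
  classical
  obtain ⟨G, hb, hspan, hmin, hfG⟩ := hf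
  have hGI : ∀ g ∈ G, g ∈ toricIdeal k a := fun g hg => hspan ▸ Ideal.subset_span hg
  refine ⟨hb f hfG, hGI f hfG, ?_⟩
  intro hirr
  refine hmin (G \ {f}) ⟨Set.sdiff_subset, fun h => (h hfG).2 rfl⟩ ?_
  refine le_antisymm (Ideal.span_le.2 fun g hg => hGI g hg.1) ?_
  refine nakayama c hc.pos _ _ ?_ ?_
  · intro g hg
    exact isHomog_binomial hc (hb g hg.1) (hGI g hg.1)
  · conv_lhs => rw [← hspan]
    rw [Ideal.span_le]
    intro g hg
    by_cases hgf : g = f
    · rw [hgf]
      exact Ideal.mem_sup_right hirr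
    · exact Ideal.mem_sup_left (Ideal.subset_span ⟨hg, hgf⟩)

lemma markov_of_not_mem_irr {a : σ → (Fin d → ℤ)} {c : σ → ℕ} (hc : Grad a c)
    {f : MvPolynomial σ k} (hb : IsBinomial f) (hf : f ∈ toricIdeal k a)
    (hirr : f ∉ irr (toricIdeal k a)) : f ∈ universalMarkov (toricIdeal k a) := by
  classical
  set I := toricIdeal k a with hI
  let N : Submodule k (MvPolynomial σ k) := (irr I).restrictScalars k
  have hN : ∀ p, N.mkQ p = 0 ↔ p ∈ irr I := by
    intro p
    rw [Submodule.mkQ_apply, Submodule.Quotient.mk_eq_zero]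
    rfl
  have hs : LinearIndepOn k N.mkQ ({f} : Set (MvPolynomial σ k)) := by
    refine LinearIndepOn.singleton ?_
    rw [Ne, hN]; exact hirr
  obtain ⟨b, hbt, hfb, hspan, hli⟩ := exists_linearIndepOn_extension (K := k) (v := N.mkQ)
    (s := {f}) (t := {g | IsBinomial g ∧ g ∈ I}) hs (by
      intro g hg; rw [Set.mem_singleton_iff.1 hg]; exact ⟨hb, hf⟩)
  refine ⟨b, fun g hg => (hbt hg).1, ?_, ?_, hfb rfl⟩
  · refine le_antisymm (Ideal.span_le.2 fun g hg => (hbt hg).2) ?_
    refine nakayama c hc.pos _ _ (fun g hg => isHomog_binomial hc (hbt hg).1 (hbt hg).2) ?_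
    refine (toric_le_span a).trans ?_
    rw [Ideal.span_le]
    intro g hg
    have h1 : N.mkQ g ∈ Submodule.span k (N.mkQ '' b) := hspan ⟨g, hg, rfl⟩
    rw [← Submodule.map_span] at h1
    obtain ⟨q, hq, hgq⟩ := h1
    have h2 : g - q ∈ irr I := by
      rw [← hN, map_sub, hgq, sub_self]
    have h3 : q ∈ Ideal.span b := by
      have : Submodule.span k b ≤ (Ideal.span b).restrictScalars k :=
        Submodule.span_le.2 fun x hx => Ideal.subset_span hx
      exact this hq
    have h4 : g = q + (g - q) := by ring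
    rw [h4]
    exact add_mem (Ideal.mem_sup_left h3) (Ideal.mem_sup_right h2)
  · intro H hH hspanH
    obtain ⟨hsub, hne⟩ := hH
    obtain ⟨g, hg, hgH⟩ := Set.not_subset.1 hne
    have hgI : g ∈ Ideal.span H := by rw [hspanH]; exact (hbt hg).2
    obtain ⟨q, hq, hgq⟩ := span_le I H (fun x hx => (hbt (hsub hx)).2) hgI
    have h1 : N.mkQ g = N.mkQ q := by
      rw [← sub_eq_zero, ← map_sub, hN]; exact hgq
    have h2 : N.mkQ g ∈ Submodule.span k (N.mkQ '' H) := by
      rw [h1, ← Submodule.map_span]
      exact ⟨q, hq, rfl⟩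
    have h3 : LinearIndepOn k N.mkQ (insert g H) := hli.mono (Set.insert_subset hg hsub)
    exact ((linearIndepOn_insert hgH).1 h3).2 h2

/-! ### Elimination of variables -/

/-- inclusion of the exponent vectors supported on `S` -/
noncomputable def incl (S : Set σ) : (S →₀ ℕ) →+ (σ →₀ ℕ) :=
  Finsupp.mapDomain.addMonoidHom Subtype.val

/-- restriction of exponent vectors to `S` -/
noncomputable def restr (S : Set σ) : (σ →₀ ℕ) →+ (S →₀ ℕ) :=
  Finsupp.comapDomain.addMonoidHom Subtype.val_injective

open Classical in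
/-- total degree outside `S` -/
noncomputable def outdeg (S : Set σ) : (σ →₀ ℕ) →+ ℕ :=
  Finsupp.weight (fun i => if i ∈ S then 0 else 1)

lemma incl_injective (S : Set σ) : Function.Injective (incl S) :=
  Finsupp.mapDomain_injective Subtype.val_injective

lemma restr_incl (S : Set σ) (u : S →₀ ℕ) : restr S (incl S u) = u :=
  Finsupp.comapDomain_mapDomain _ Subtype.val_injective u

lemma dg_incl (a : σ → (Fin d → ℤ)) (S : Set σ) (u : S →₀ ℕ) :
    dg a (incl S u) = dg (fun i : S => a i) u := by
  classical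
  induction u using Finsupp.induction with
  | zero => simp
  | single_add i n u _ _ ih =>
    rw [map_add, map_add, map_add, ih]
    congr 1
    have : incl S (Finsupp.single i n) = Finsupp.single (i : σ) n := Finsupp.mapDomain_single
    rw [this, Finsupp.weight_single, Finsupp.weight_single]

lemma outdeg_single (S : Set σ) (i : σ) (n : ℕ) (hi : i ∈ S) :
    outdeg S (Finsupp.single i n) = 0 := by
  classical
  rw [outdeg, Finsupp.weight_single, if_pos hi, smul_zero]

lemma outdeg_incl (S : Set σ) (u : S →₀ ℕ) : outdeg S (incl S u) = 0 := by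
  classical
  induction u using Finsupp.induction with
  | zero => simp
  | single_add i n u _ _ ih =>
    rw [map_add, map_add, ih, add_zero]
    have : incl S (Finsupp.single i n) = Finsupp.single (i : σ) n := Finsupp.mapDomain_single
    rw [this, outdeg_single S i n i.2]

lemma outdeg_pos (S : Set σ) (U : σ →₀ ℕ) (i : σ) (hi : i ∉ S) (hU : U i ≠ 0) :
    0 < outdeg S U := by
  classical
  rw [outdeg, Finsupp.weight_apply]
  have h2 : U i • (if i ∈ S then 0 else 1) ≤ U.sum fun i n => n • (if i ∈ S then 0 else 1) :=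
    Finset.single_le_sum (f := fun i => U i • (if i ∈ S then 0 else 1)) (fun _ _ => Nat.zero_le _)
      (Finsupp.mem_support_iff.2 hU)
  rw [if_neg hi, smul_eq_mul, mul_one] at h2
  omega

lemma eq_incl_restr (S : Set σ) {U : σ →₀ ℕ} (h : outdeg S U = 0) : U = incl S (restr S U) := by
  classical
  ext i
  by_cases hi : i ∈ S
  · have : incl S (restr S U) (⟨i, hi⟩ : S) = restr S U ⟨i, hi⟩ :=
      Finsupp.mapDomain_apply Subtype.val_injective _ _
    exact this.symm
  · have h1 : incl S (restr S U) i = 0 := by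
      refine Finsupp.mapDomain_of_notMem_range _ _ ?_
      rintro ⟨x, rfl⟩
      exact hi x.2
    rw [h1]
    by_contra hne
    have := outdeg_pos S U i hi hne
    omega

lemma outdeg_mono (S : Set σ) {U V : σ →₀ ℕ} (h : U ≤ V) : outdeg S U ≤ outdeg S V := by
  obtain ⟨c, rfl⟩ := exists_add_of_le h
  rw [map_add]; omega

lemma restr_mono (S : Set σ) {U V : σ →₀ ℕ} (h : U ≤ V) : restr S U ≤ restr S V := by
  obtain ⟨c, rfl⟩ := exists_add_of_le h
  rw [map_add]; exact le_self_add

lemma incl_mono (S : Set σ) {u v : S →₀ ℕ} (h : u ≤ v) : incl S u ≤ incl S v := by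
  obtain ⟨c, rfl⟩ := exists_add_of_le h
  rw [map_add]; exact le_self_add

/-- restriction of a Groebner pair -/
lemma gb_restrict (a : σ → (Fin d → ℤ)) (S : Set σ) (o : TermOrder σ) {u v : S →₀ ℕ}
    (h : GB a o (incl S u) (incl S v)) :
    GB (fun i : S => a i) (o.comap (incl S) (incl_injective S)) u v := by
  have hstd : ∀ w : S →₀ ℕ, Std a o (incl S w) →
      Std (fun i : S => a i) (o.comap (incl S) (incl_injective S)) w := by
    intro w hw x hx
    exact hw (incl S x) (by rw [dg_incl, dg_incl, hx])
  refine ⟨?_, h.lt, hstd v h.std, ?_⟩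
  · rw [← dg_incl, ← dg_incl]; exact h.eq
  · intro w hw hne
    exact hstd w (h.min _ (incl_mono S hw) fun he => hne (incl_injective S he))

/-- extension of a Groebner pair by an elimination order -/
lemma gb_extend [Finite σ] (a : σ → (Fin d → ℤ)) (S : Set σ) (o : TermOrder S) {u v : S →₀ ℕ}
    (h : GB (fun i : S => a i) o u v) : ∃ o' : TermOrder σ, GB a o' (incl S u) (incl S v) := by
  obtain ⟨o0⟩ := TermOrder.exists_termOrder σ
  refine ⟨(TermOrder.lexMap (restr S) o o0).wtMap (outdeg S), ?_⟩
  have hstd : ∀ w : S →₀ ℕ, Std (fun i : S => a i) o w →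
      Std a ((TermOrder.lexMap (restr S) o o0).wtMap (outdeg S)) (incl S w) := by
    intro w hw X hX hlt
    have key : ∀ X : σ →₀ ℕ, outdeg S X = 0 → dg a X = dg a (incl S w) →
        (TermOrder.lexMap (restr S) o o0).lt X (incl S w) → False := by
      intro X h0 hX h1
      have hXr := eq_incl_restr S h0
      rcases h1 with h2 | ⟨h2, h3⟩
      · rw [restr_incl] at h2
        refine hw (restr S X) ?_ h2
        rw [← dg_incl, ← dg_incl, ← hXr, hX]
      · rw [restr_incl] at h2
        rw [hXr, h2] at h3
        exact o0.irrefl _ h3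
    rcases hlt with h1 | ⟨h1, h2⟩
    · rw [outdeg_incl] at h1
      exact absurd h1 (Nat.not_lt_zero _)
    · rw [outdeg_incl] at h1
      exact key X h1 hX h2
  refine ⟨?_, ?_, hstd v h.std, ?_⟩
  · rw [dg_incl, dg_incl]; exact h.eq
  · right
    refine ⟨by rw [outdeg_incl, outdeg_incl], Or.inl ?_⟩
    rw [restr_incl, restr_incl]; exact h.lt
  · intro W hW hne
    have h0 : outdeg S W = 0 := by
      have := outdeg_mono S hW
      rw [outdeg_incl] at this
      omega
    have hWr := eq_incl_restr S h0
    rw [hWr]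
    apply hstd
    apply h.min
    · have := restr_mono S hW
      rwa [restr_incl] at this
    · intro he
      apply hne
      rw [hWr, he]

lemma rename_monomial' (S : Set σ) (u : S →₀ ℕ) (r : k) :
    rename (Subtype.val : S → σ) (monomial u r) = monomial (incl S u) r :=
  rename_monomial _ _ _

lemma rename_mem_toric (a : σ → (Fin d → ℤ)) (S : Set σ) {p : MvPolynomial S k}
    (hp : p ∈ toricIdeal k (fun i : S => a i)) :
    rename (Subtype.val : S → σ) p ∈ toricIdeal k a := by
  show ev k a (rename (Subtype.val : S → σ) p) = 0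
  rw [ev, aeval_rename]
  exact hp

lemma rename_mem_irr (a : σ → (Fin d → ℤ)) (S : Set σ) {p : MvPolynomial S k}
    (hp : p ∈ irr (toricIdeal k (fun i : S => a i))) :
    rename (Subtype.val : S → σ) p ∈ irr (toricIdeal k a) := by
  have h1 := Ideal.mem_map_of_mem (rename (Subtype.val : S → σ) : MvPolynomial S k →ₐ[k] _) hp
  rw [Ideal.map_mul] at h1
  refine Ideal.mul_mono ?_ ?_ h1
  · rw [Ideal.map_span, Ideal.span_le]
    rintro _ ⟨_, ⟨i, rfl⟩, rfl⟩
    rw [rename_X]
    exact Ideal.subset_span ⟨_, rfl⟩
  · rw [Ideal.map_le_iff_le_comap]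
    intro q hq
    exact rename_mem_toric a S hq

/-- a common variable puts the difference of two monomials of one fibre into `irr I` -/
lemma sub_mem_irr_of_common (a : σ → (Fin d → ℤ)) {u v : σ →₀ ℕ} (h : dg a u = dg a v) (i : σ)
    (hu : u i ≠ 0) (hv : v i ≠ 0) :
    (monomial u (1 : k) - monomial v 1) ∈ irr (toricIdeal k a) := by
  classical
  have hu' : Finsupp.single i 1 ≤ u := by
    rw [Finsupp.single_le_iff]; omega
  have hv' : Finsupp.single i 1 ≤ v := by
    rw [Finsupp.single_le_iff]; omega
  obtain ⟨x, rfl⟩ := exists_add_of_le hu'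
  obtain ⟨y, rfl⟩ := exists_add_of_le hv'
  have hxy : dg a x = dg a y := by
    rw [map_add, map_add] at h
    exact add_left_cancel h
  have h1 : (monomial (Finsupp.single i 1 + x) (1 : k) - monomial (Finsupp.single i 1 + y) 1)
      = X i * (monomial x 1 - monomial y 1) := by
    rw [monomial_single_add, monomial_single_add, pow_one, mul_sub]
  rw [h1]
  exact Ideal.mul_mem_mul (Ideal.subset_span ⟨i, rfl⟩) (binomial_mem a hxy)

/-- the main step: a minimal binomial is congruent modulo `irr I` to an element of a reduced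
Groebner basis, monomial by monomial -/
lemma exists_gb_congr [Finite σ] {a : σ → (Fin d → ℤ)} {c : σ → ℕ} (hc : Grad a c)
    {u v : σ →₀ ℕ} (huv : dg a u = dg a v)
    (hirr : (monomial u (1 : k) - monomial v 1) ∉ irr (toricIdeal k a)) :
    ∃ (o : TermOrder σ) (u' v' : σ →₀ ℕ), GB a o u' v' ∧
      (monomial u (1 : k) - monomial u' 1) ∈ irr (toricIdeal k a) ∧
      (monomial v (1 : k) - monomial v' 1) ∈ irr (toricIdeal k a) := by
  classical
  set J := irr (toricIdeal k a) with hJ
  -- variables in the class of `v`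
  let T : Set σ := {i | ∃ w : σ →₀ ℕ, dg a w = dg a v ∧
    (monomial v (1 : k) - monomial w 1) ∈ J ∧ w i ≠ 0}
  obtain ⟨o0⟩ := TermOrder.exists_termOrder σ
  let o : TermOrder σ := o0.wtMap (outdeg T)
  obtain ⟨v', hv', hv'min⟩ := o.exists_min (fun w => dg a w = dg a v) ⟨v, rfl⟩
  have hTv : outdeg T v = 0 := by
    rw [outdeg, Finsupp.weight_apply]
    refine Finset.sum_eq_zero fun i hi => ?_
    have : i ∈ T := ⟨v, rfl, by rw [sub_self]; exact zero_mem _, Finsupp.mem_support_iff.1 hi⟩
    show v i • (if i ∈ T then 0 else 1) = 0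
    rw [if_pos this, smul_zero]
  have hTv' : outdeg T v' = 0 := by
    by_contra hne
    exact hv'min v rfl (Or.inl (by omega))
  have hv'J : (monomial v (1 : k) - monomial v' 1) ∈ J := by
    by_cases h0 : v' = 0
    · have hv0 : v = 0 := by
        apply hc.eq_zero
        rw [← hv', h0, map_zero]
      rw [h0, hv0, sub_self]; exact zero_mem _
    · obtain ⟨i, hi⟩ := Finsupp.ne_iff.1 h0
      rw [Finsupp.coe_zero, Pi.zero_apply] at hi
      have hiT : i ∈ T := by
        by_contra hiT
        have := outdeg_pos T v' i hiT hi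
        omega
      obtain ⟨w, hw, hwJ, hwi⟩ := hiT
      have h1 : (monomial w (1 : k) - monomial v' 1) ∈ J :=
        sub_mem_irr_of_common a (hw.trans hv'.symm) i hwi hi
      have h2 : (monomial v (1 : k) - monomial v' 1)
          = (monomial v 1 - monomial w 1) + (monomial w 1 - monomial v' 1) := by ring
      rw [h2]; exact add_mem hwJ h1
  obtain ⟨u', ⟨hu', hu'J⟩, hu'min⟩ := o.exists_min
    (fun w => dg a w = dg a u ∧ (monomial u (1 : k) - monomial w 1) ∈ J)
    ⟨u, rfl, by rw [sub_self]; exact zero_mem _⟩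
  refine ⟨o, u', v', ⟨?_, ?_, ?_, ?_⟩, hu'J, hv'J⟩
  · rw [hu', huv, hv']
  · rcases o.total v' u' with h | h | h
    · exact h
    · exfalso
      apply hirr
      have h2 : (monomial u (1 : k) - monomial v 1)
          = (monomial u 1 - monomial u' 1) - (monomial v 1 - monomial v' 1) := by
        rw [h]; ring
      rw [h2]; exact sub_mem hu'J hv'J
    · exact absurd h (hv'min u' (hu'.trans huv))
  · intro w hw
    exact hv'min w (hw.trans hv')
  · intro w hw hne x hx hlt
    obtain ⟨e, rfl⟩ := exists_add_of_le hw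
    have he : e ≠ 0 := by
      rintro rfl
      exact hne (by simp)
    have h1 : o.lt (x + e) (w + e) := o.add_lt _ _ e hlt
    refine hu'min (x + e) ⟨?_, ?_⟩ h1
    · rw [map_add, hx, ← map_add, hu']
    · have h2 : (monomial (w + e) (1 : k) - monomial (x + e) 1) ∈ J := by
        have h3 : (monomial (w + e) (1 : k) - monomial (x + e) 1)
            = monomial e 1 * (monomial w 1 - monomial x 1) := by
          rw [mul_sub, monomial_mul, monomial_mul, one_mul, add_comm e w, add_comm e x]
        rw [h3]
        refine Ideal.mul_mem_mul ?_ (binomial_mem a hx.symm)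
        obtain ⟨i, hi⟩ := Finsupp.ne_iff.1 he
        rw [Finsupp.coe_zero, Pi.zero_apply] at hi
        have hle : Finsupp.single i 1 ≤ e := by
          rw [Finsupp.single_le_iff]; omega
        obtain ⟨t, rfl⟩ := exists_add_of_le hle
        rw [monomial_single_add, pow_one]
        exact Ideal.mul_mem_right _ _ (Ideal.subset_span ⟨i, rfl⟩)
      have h4 : (monomial u (1 : k) - monomial (x + e) 1)
          = (monomial u 1 - monomial (w + e) 1) + (monomial (w + e) 1 - monomial (x + e) 1) := by
        ring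
      rw [h4]; exact add_mem hu'J h2

lemma binomial_inj {u v u' v' : σ →₀ ℕ} (huv : u ≠ v) (huv' : u' ≠ v')
    (h : (monomial u (1 : k) - monomial v 1) = monomial u' 1 - monomial v' 1) :
    (u = u' ∧ v = v') ∨ (u = v' ∧ v = u') := by
  have hsupp : ∀ w : σ →₀ ℕ, (w = u ∨ w = v) ↔ (w = u' ∨ w = v') := by
    intro w
    rw [← mem_support_binomial (k := k) huv, h, mem_support_binomial huv']
  rcases (hsupp u).1 (Or.inl rfl) with h1 | h1 <;> rcases (hsupp v).1 (Or.inr rfl) with h2 | h2
  · exact absurd (h1.trans h2.symm) huv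
  · exact Or.inl ⟨h1, h2⟩
  · exact Or.inr ⟨h1, h2⟩
  · exact absurd (h1.trans h2.symm) huv

lemma GB.ne {a : σ → (Fin d → ℤ)} {o : TermOrder σ} {u v : σ →₀ ℕ} (h : GB a o u v) : u ≠ v := by
  rintro rfl
  exact o.irrefl _ h.lt

end Toric

/-- **Generalized robustness passes to subsets.** Let `a` be a finite family of vectors of `ℤ^d`
with `w · a_i > 0` for some `w ∈ ℚ^d`. If the universal Groebner basis of the toric ideal of `a`
equals its universal Markov basis, then the same holds for every subfamily. -/
theorem result (k : Type) [Field k] (σ : Type) [Finite σ] (d : ℕ) (a : σ → (Fin d → ℤ))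
    (w : Fin d → ℚ) (hw : ∀ i, 0 < ∑ j, w j * (a i j : ℚ))
    (h : GeneralizedRobust (toricIdeal k a)) (S : Set σ) :
    GeneralizedRobust (toricIdeal k (fun i : S => a i)) := by
  classical
  obtain ⟨c, hc⟩ := exists_grad a w hw
  obtain ⟨c', hc'⟩ := exists_grad (fun i : S => a i) w (fun i => hw i)
  have hu : ∀ f : MvPolynomial σ k, f ∈ universalGroebner (toricIdeal k a) ↔
      f ∈ universalMarkov (toricIdeal k a) := fun f => by
    have : universalGroebner (toricIdeal k a) = universalMarkov (toricIdeal k a) := h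
    rw [this]
  -- Groebner pairs of the subfamily are Groebner pairs, hence minimal
  have hmin : ∀ (o : TermOrder S) (u v : S →₀ ℕ), GB (fun i : S => a i) o u v →
      (monomial (incl S u) (1 : k) - monomial (incl S v) 1) ∉ irr (toricIdeal k a) := by
    intro o u v hgb
    obtain ⟨o', hgb'⟩ := gb_extend a S o hgb
    have h1 : (monomial (incl S u) (1 : k) - monomial (incl S v) 1) ∈
        universalGroebner (toricIdeal k a) :=
      (mem_universalGroebner_iff a _).2 ⟨o', _, _, hgb', Or.inl rfl⟩
    exact (not_mem_irr_of_markov hc ((hu _).1 h1)).2.2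
  refine Set.Subset.antisymm ?_ ?_
  · intro f hf
    obtain ⟨o, u, v, hgb, hfe⟩ := (mem_universalGroebner_iff _ f).1 hf
    have h1 := hmin o u v hgb
    have hne : u ≠ v := hgb.ne
    have hren : (rename (Subtype.val : S → σ) (monomial u (1 : k) - monomial v 1))
        = monomial (incl S u) (1 : k) - monomial (incl S v) 1 := by
      rw [map_sub, rename_monomial', rename_monomial']
    have h2 : (monomial u (1 : k) - monomial v 1) ∉
        irr (toricIdeal k (fun i : S => a i)) := by
      intro hmem
      have := rename_mem_irr a S hmem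
      rw [hren] at this
      exact h1 this
    rcases hfe with rfl | rfl
    · exact markov_of_not_mem_irr hc' ⟨u, v, hne, rfl⟩ (binomial_mem _ hgb.eq) h2
    · refine markov_of_not_mem_irr hc' ⟨v, u, hne.symm, rfl⟩ (binomial_mem _ hgb.eq.symm) ?_
      intro hmem
      apply h2
      rw [← neg_sub]
      exact neg_mem hmem
  · intro f hf
    obtain ⟨⟨u, v, hne, rfl⟩, hfI, hirr⟩ := not_mem_irr_of_markov hc' hf
    have hdeg := dg_eq_of_mem _ hfI
    obtain ⟨o, u', v', hgb, hu', hv'⟩ := exists_gb_congr hc' hdeg hirr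
    have h1 := hmin o u' v' hgb
    have hnot : (monomial (incl S u) (1 : k) - monomial (incl S v) 1) ∉
        irr (toricIdeal k a) := by
      intro hmem
      apply h1
      have e1 := rename_mem_irr a S hu'
      have e2 := rename_mem_irr a S hv'
      rw [map_sub, rename_monomial', rename_monomial'] at e1 e2
      have e3 : (monomial (incl S u') (1 : k) - monomial (incl S v') 1)
          = (monomial (incl S u) 1 - monomial (incl S v) 1)
            - (monomial (incl S u) 1 - monomial (incl S u') 1)
            + (monomial (incl S v) 1 - monomial (incl S v') 1) := by ring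
      rw [e3]
      exact add_mem (sub_mem hmem e1) e2
    have hne' : incl S u ≠ incl S v := fun he => hne (incl_injective S he)
    have hmem : (monomial (incl S u) (1 : k) - monomial (incl S v) 1) ∈
        universalGroebner (toricIdeal k a) := by
      refine (hu _).2 (markov_of_not_mem_irr hc ⟨_, _, hne', rfl⟩ (binomial_mem a ?_) hnot)
      rw [dg_incl, dg_incl, hdeg]
    obtain ⟨o', U, V, hgb', hUV⟩ := (mem_universalGroebner_iff a _).1 hmem
    have hcases : (incl S u = U ∧ incl S v = V) ∨ (incl S u = V ∧ incl S v = U) := by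
      rcases hUV with hUV | hUV
      · exact binomial_inj hne' hgb'.ne hUV
      · rcases binomial_inj hne' hgb'.ne.symm hUV with h3 | h3
        · exact Or.inr h3
        · exact Or.inl h3
    rw [mem_universalGroebner_iff]
    rcases hcases with ⟨rfl, rfl⟩ | ⟨rfl, rfl⟩
    · exact ⟨_, u, v, gb_restrict a S o' hgb', Or.inl rfl⟩
    · exact ⟨_, v, u, gb_restrict a S o' hgb', Or.inr rfl⟩

end Pool.Agent.Results.MP_1df74f_al.EliminationInherits
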